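import Pool.Agent.Helper805.Nuc.Reduce
import Pool.Agent.Helper805.NucCert.Super
import Pool.Agent.Helper805.Mod.Wit
set_option autoImplicit false

/-!
The inclusion `2 ZN ⊆ N` fails in the free alternative algebra `Alt[X]` over every commutative ring `Φ`
in which `6` is not nilpotent (for instance `ℤ`, every nonzero ring containing `1/6`, every field of
characteristic different from two and three), for every set `X` with at least nine elements.
-/

namespace Pool.Agent.Results.MP_b862e0_al.AllRings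
open Pool.Agent.Helper805.Nuc.Defs
open Pool.Agent.Helper805.Nuc Pool.Agent.Helper805.Mod

theorem result (Φ : Type) [CommRing Φ] (hΦ : ¬ IsNilpotent (6 : Φ)) (X : Type) (hX : Nonempty (Fin 9 ↪ X)) :
    ∃ z ∈ ZN (FreeAlt Φ X), ∃ a b : FreeAlt Φ X, (2 : ℤ) • assoc z a b ≠ 0 := by
  classical
  obtain ⟨ι⟩ := hX
  rw [nilpotent_iff_mem_prime] at hΦ
  push Not at hΦ
  obtain ⟨P, hP, h6P⟩ := hΦ
  let K : Type := FractionRing (Φ ⧸ P)
  let φ : Φ →+* K := (algebraMap (Φ ⧸ P) K).comp (Ideal.Quotient.mk P)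
  have hK6 : (6 : K) ≠ 0 := by
    intro h
    apply h6P
    have h1 : φ 6 = 0 := by
      rw [map_ofNat]; exact h
    have h2 : (algebraMap (Φ ⧸ P) K) (Ideal.Quotient.mk P 6) = 0 := h1
    rw [map_eq_zero_iff _ (IsFractionRing.injective (Φ ⧸ P) K)] at h2
    exact Ideal.Quotient.eq_zero_iff_mem.mp h2
  have hK2 : (2 : K) ≠ 0 := by
    intro h
    apply hK6
    have : (6 : K) = 2 * 3 := by norm_num
    rw [this, h, zero_mul]
  have hK3 : (3 : K) ≠ 0 := by
    intro h
    apply hK6
    have : (6 : K) = 2 * 3 := by norm_num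
    rw [this, h, mul_zero]
  obtain ⟨v, hv⟩ := Wit.witness K hK6
  letI : Module Φ (Env.BS K) := Module.compHom (Env.BS K) φ
  haveI : IsScalarTower Φ (Env.BS K) (Env.BS K) := ⟨fun r a b => smul_mul_assoc (φ r) a b⟩
  haveI : SMulCommClass Φ (Env.BS K) (Env.BS K) := ⟨fun r a b => (mul_smul_comm (φ r) a b).symm⟩
  let f : X → Env.BS K := fun x => if h : ∃ i, ι i = x then v h.choose else (0 : Env.BS K)
  have hf : ∀ i, f (ι i) = v i := by
    intro i
    have h : ∃ j, ι j = ι i := ⟨i, rfl⟩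
    show (if h : ∃ j, ι j = ι i then v h.choose else 0) = v i
    rw [dif_pos h]
    exact congrArg v (ι.injective h.choose_spec)
  have hg : ∀ i, Clean.lift (Φ := Φ) (Env.BS_alt K hK2) f (Clean.gen (ι i)) = v i :=
    fun i => (Clean.lift_gen (Env.BS_alt K hK2) f (ι i)).trans (hf i)
  refine Clean.main_general Clean.isAlt (fun i => Clean.gen (ι (Wit.jx i))) (Clean.lift (Φ := Φ) (Env.BS_alt K hK2) f)
    (2 * 373248) ?_ ?_
  · intro x y r s
    refine Reduce.nuc_of_cert 373248 ?_ _ Clean.isAlt x y r s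
    intro R _ P hP x hx y hy z hz
    exact Pool.Agent.Helper805.NucCert.nuc_super hP hx hz hy
  · simp only [hg]
    intro h
    apply hv
    have h4 : ((2 * (2 * 373248) : ℤ) : K) ≠ 0 := by
      have h5 : ((2 * (2 * 373248) : ℤ) : K) = 2 ^ 11 * 3 ^ 6 := by norm_num
      rw [h5]
      exact mul_ne_zero (pow_ne_zero _ hK2) (pow_ne_zero _ hK3)
    rw [← Int.cast_smul_eq_zsmul K] at h
    exact (smul_eq_zero.mp h).resolve_left h4

end Pool.Agent.Results.MP_b862e0_al.AllRings
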