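import Pool.Agent.Helper805.Nuc.Main7
import Pool.Agent.Helper805.Nuc.Reduce
import Pool.Agent.Helper805.NucCert.Super
set_option autoImplicit false

/-!
The inclusion `2 ZN ⊆ N` fails in the free alternative algebra `Alt[X]` over every commutative ring `Φ`
that has a ring homomorphism to the field with seven elements (for instance `Φ = ℤ` and
`Φ = ZMod 7`), for every set `X` with at least ten elements, in particular for every infinite `X`.

* Nuclear element: `nf x y`, an alternating polynomial in `x 0, …, x 4` and linear in `y`;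
  `746496 • (nf x y, r, s) = 0` in every alternative ring (kernel-checked certificate in `NucCert`).
* Non-vanishing: a finite super-alternative algebra over `ZMod 7` and its Grassmann envelope.
-/

namespace Pool.Agent.Results.MP_b862e0_al.NotTwoZN
open Pool.Agent.Helper805.Nuc.Free

theorem result (Φ : Type) [CommRing Φ] (hΦ : Nonempty (Φ →+* ZMod 7)) (X : Type) (hX : Nonempty (Fin 10 ↪ X)) :
    ∃ z ∈ ZN Φ (FreeAlt Φ X), (2 : ℤ) • z ∉ nucleus Φ (FreeAlt Φ X) := by
  obtain ⟨φ⟩ := hΦ
  obtain ⟨ι⟩ := hX
  refine Pool.Agent.Helper805.Nuc.Main7.main (2 * 373248) (by norm_num) ?_ Φ φ X ι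
  intro A _ hA x y r s
  refine Pool.Agent.Helper805.Nuc.Reduce.nuc_of_cert 373248 ?_ A hA x y r s
  intro R _ P hP x hx y hy z hz
  exact Pool.Agent.Helper805.NucCert.nuc_super hP hx hz hy

end Pool.Agent.Results.MP_b862e0_al.NotTwoZN
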