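import Pool.Agent.Helper805.Nuc.Clean
set_option autoImplicit false

/-!
The inclusion `2 ZN ⊆ N` fails in the free alternative algebra `Alt[X]` over every commutative ring `Φ`
that has a ring homomorphism to the field with seven elements (for instance `Φ = ℤ` and `Φ = ZMod 7`),
for every set `X` with at least ten elements, in particular for every infinite `X`.
-/

namespace Pool.Agent.Results.MP_b862e0_al.TwoZN
open Pool.Agent.Helper805.Nuc.Defs
open Pool.Agent.Helper805.Nuc

theorem result (Φ : Type) [CommRing Φ] (hΦ : Nonempty (Φ →+* ZMod 7)) (X : Type) (hX : Nonempty (Fin 10 ↪ X)) :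
    ∃ z ∈ ZN (FreeAlt Φ X), ∃ a b : FreeAlt Φ X, (2 : ℤ) • assoc z a b ≠ 0 := by
  classical
  obtain ⟨φ⟩ := hΦ
  obtain ⟨ι⟩ := hX
  obtain ⟨v, hv⟩ := Wit7.witness
  letI : Module Φ Model7.BS := Module.compHom Model7.BS φ
  haveI : IsScalarTower Φ Model7.BS Model7.BS := ⟨fun r a b => smul_mul_assoc (φ r) a b⟩
  haveI : SMulCommClass Φ Model7.BS Model7.BS := ⟨fun r a b => (mul_smul_comm (φ r) a b).symm⟩
  let f : X → Model7.BS := fun x => if h : ∃ i, ι i = x then v h.choose else (0 : Model7.BS)
  have hf : ∀ i, f (ι i) = v i := by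
    intro i
    have h : ∃ j, ι j = ι i := ⟨i, rfl⟩
    show (if h : ∃ j, ι j = ι i then v h.choose else 0) = v i
    rw [dif_pos h]
    exact congrArg v (ι.injective h.choose_spec)
  have hg : ∀ i, Clean.lift (Φ := Φ) Model7.BS_alt f (Clean.gen (ι i)) = v i :=
    fun i => (Clean.lift_gen Model7.BS_alt f (ι i)).trans (hf i)
  refine Clean.main_general Clean.isAlt (fun i => Clean.gen (ι i)) (Clean.lift (Φ := Φ) Model7.BS_alt f)
    (2 * 373248) ?_ ?_
  · intro x y r s
    refine Reduce.nuc_of_cert 373248 ?_ _ Clean.isAlt x y r s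
    intro R _ P hP x hx y hy z hz
    exact Pool.Agent.Helper805.NucCert.nuc_super hP hx hz hy
  · simp only [hg]
    intro h
    apply hv
    have h4 : ((2 * (2 * 373248) : ℤ) : ZMod 7) ≠ 0 := by decide
    rw [← Int.cast_smul_eq_zsmul (ZMod 7)] at h
    exact (smul_eq_zero.mp h).resolve_left h4

end Pool.Agent.Results.MP_b862e0_al.TwoZN
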